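import Mathlib
import Pool.Agent.TH170.LV.Direct
import Pool.Agent.TH170.LV.Types
import Pool.Agent.TH170.CM.Cor
import Pool.Agent.TH170.CM.Family
import Pool.Agent.W548.Tt.Final
import Pool.Agent.W547.LN.Tate

/-!
# Families of CM types without exceptional words, Hodge classes and Tate classes
-/

set_option linter.unusedSectionVars false
set_option linter.unusedVariables false

namespace Pool.Agent.TH170.TT

open NumberField Module Pool.Agent.H204R3.CM Pool.Agent.W546.GHC Pool.Agent.TH170.LV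
  Pool.Agent.TH170.CM Pool.Agent.W547.KB Pool.Agent.W530.NF Pool.Agent.W547.LN
  Pool.Agent.H977R3.CM

noncomputable section

section free

variable {ι : Type} [Fintype ι] {E : ι → Type} [∀ i, Field (E i)] [∀ i, NumberField (E i)]
  [∀ i, IsCMField (E i)]

/-- Nondegenerate families have no exceptional words. -/
theorem levelFree_of_nondeg {L : Type*} [Field L] [NumberField L] [IsGalois ℚ L]
    {Φ : ∀ i, Set (E i →+* ℂ)} (hΦ : ∀ i, IsCMType (Φ i)) (j : L →+* ℂ)
    (h : ∀ i, ∀ ψ : E i →+* ℂ, ∃ φ : E i →+* L, j.comp φ = ψ) (hnd : Nondeg Φ j) (k : ℕ) :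
    LevelFree Φ k 0 := by
  classical
  intro n hn B hB hBn a ha
  obtain rfl : B = 0 := by omega
  by_contra hcon
  push Not at hcon
  let toC : (Σ i, (E i →+* L)) → Σ i, (E i →+* ℂ) := fun y => ⟨y.1, j.comp y.2⟩
  have hsurj : ∀ z, ∃ y, toC y = z := by
    rintro ⟨i, ψ⟩
    obtain ⟨φ, hφ⟩ := h i ψ
    exact ⟨⟨i, φ⟩, by simp only [toC, hφ]⟩
  let inv : (Σ i, (E i →+* L)) → Σ i, (E i →+* L) := fun y => ⟨y.1, cbar y.2⟩
  have hinv : ∀ y, inv (inv y) = y := by
    rintro ⟨i, φ⟩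
    simp only [inv, cbar_cbar]
  have hconj : ∀ y : Σ i, (E i →+* L),
      (⟨(toC y).1, ComplexEmbedding.conjugate (toC y).2⟩ : Σ i, (E i →+* ℂ)) = toC (inv y) := by
    rintro ⟨i, φ⟩
    simp only [toC, inv, comp_cbar]
  choose b hb using fun l => hsurj (a l)
  have hfree : ∀ l l', b l ≠ inv (b l') := by
    intro l l' hll
    apply ha l l'
    have h1 : toC (b l) = toC (inv (b l')) := by rw [hll]
    rw [← hconj, hb, hb] at h1
    exact h1
  let u : (L ≃ₐ[ℚ] L) → (Σ i, (E i →+* L)) → ℤ := fun σ y =>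
    if j.comp (σ • y.2) ∈ Φ y.1 then 1 else -1
  have huinv : ∀ σ y, u σ (inv y) = - u σ y := by
    rintro σ ⟨i, φ⟩
    have h3 : j.comp (σ • cbar φ) = ComplexEmbedding.conjugate (j.comp (σ • φ)) := by
      rw [← comp_cbar]
      rfl
    change (if j.comp (σ • cbar φ) ∈ Φ i then (1 : ℤ) else -1) =
      -(if j.comp (σ • φ) ∈ Φ i then (1 : ℤ) else -1)
    rw [h3]
    by_cases h4 : j.comp (σ • φ) ∈ Φ i
    · rw [if_pos h4, if_neg ((hΦ i _).1 h4)]
    · rw [if_neg h4, if_pos (conj_mem hΦ h4), neg_neg]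
  have hsum : ∀ σ, ∑ l, u σ (b l) = 0 := by
    intro g
    obtain ⟨σ, hσ⟩ := Pool.Agent.H977R3.CM.exists_aut j (g : L ≃+* L)
    have h1 := hcon σ
    rw [Nat.cast_zero] at h1
    have h2 : ∑ l, u g (b l) = ∑ l, (if (σ : ℂ →+* ℂ).comp (a l).2 ∈ Φ (a l).1
        then (1 : ℤ) else -1) := by
      refine Finset.sum_congr rfl fun l _ => ?_
      rw [← hb l]
      have h3 : (σ : ℂ →+* ℂ).comp (toC (b l)).2 = j.comp (g • (b l).2) := by
        ext x
        exact hσ _
      rw [h3]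
    rw [h2]
    exact abs_nonpos_iff.1 h1
  let N : (Σ i, (E i →+* L)) → ℤ := fun y => ((Finset.univ.filter (fun l => b l = y)).card : ℤ)
  have hNsum : ∀ f : (Σ i, (E i →+* L)) → ℤ, ∑ y, N y * f y = ∑ l, f (b l) := by
    intro f
    have h3 : ∀ y, N y * f y = ∑ l, if b l = y then f y else 0 := by
      intro y
      rw [← Finset.sum_filter, Finset.sum_const, nsmul_eq_mul]
    rw [Finset.sum_congr rfl (fun y _ => h3 y), Finset.sum_comm]
    refine Finset.sum_congr rfl fun l _ => ?_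
    rw [Finset.sum_ite_eq Finset.univ (b l), if_pos (Finset.mem_univ _)]
  have hNinv : ∀ f : (Σ i, (E i →+* L)) → ℤ, ∑ y, N (inv y) * f y = ∑ l, f (inv (b l)) := by
    intro f
    rw [← hNsum (fun y => f (inv y))]
    refine Finset.sum_nbij' inv inv (fun _ _ => Finset.mem_univ _)
      (fun _ _ => Finset.mem_univ _) (fun y _ => hinv y) (fun y _ => hinv y) (fun y _ => ?_)
    rw [hinv]
  have hnd' : ∀ c : ∀ i, (E i →+* L) → ℤ, (∀ i φ, c i (cbar φ) = -c i φ) →
      (∀ σ : L ≃ₐ[ℚ] L,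
        ∑ i, ∑ φ, c i φ * (if j.comp (σ • φ) ∈ Φ i then (1 : ℤ) else -1) = 0) →
      ∀ i φ, c i φ = 0 := hnd
  have h0 := hnd' (fun i φ => N ⟨i, φ⟩ - N (inv ⟨i, φ⟩)) (fun i φ => by
      have h2 : (⟨i, cbar φ⟩ : Σ i, (E i →+* L)) = inv ⟨i, φ⟩ := rfl
      rw [h2, hinv]
      ring) (fun σ => by
      have h4 : ∑ y, (N y - N (inv y)) * u σ y = 0 := by
        simp only [sub_mul, Finset.sum_sub_distrib]
        rw [hNsum, hNinv]
        simp only [huinv, Finset.sum_neg_distrib, hsum σ, neg_zero, sub_zero]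
      rw [Fintype.sum_sigma] at h4
      exact h4)
  have l₀ : Fin n := ⟨0, by omega⟩
  have h1 := h0 (b l₀).1 (b l₀).2
  have h2 : N ⟨(b l₀).1, (b l₀).2⟩ - N (inv ⟨(b l₀).1, (b l₀).2⟩) = 0 := h1
  have h3 : N (inv (b l₀)) = 0 := by
    have h4 : Finset.univ.filter (fun l => b l = inv (b l₀)) = ∅ := by
      rw [Finset.filter_eq_empty_iff]
      intro l _ hl
      exact hfree l l₀ hl
    simp only [N, h4, Finset.card_empty, Nat.cast_zero]
  have h4 : 0 < N (b l₀) := by
    have h5 : 0 < (Finset.univ.filter (fun l => b l = b l₀)).card :=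
      Finset.card_pos.2 ⟨l₀, Finset.mem_filter.2 ⟨Finset.mem_univ _, rfl⟩⟩
    exact Nat.cast_pos.2 h5
  have h5 : N (b l₀) - N (inv (b l₀)) = 0 := h2
  rw [h3] at h5
  omega

/-- Nondegenerate types of independent fields have no exceptional words. -/
theorem levelFree_of_not_degenerate {Φ : ∀ i, Set (E i →+* ℂ)} (hΦ : ∀ i, IsCMType (Φ i))
    (hind : PairwiseIndep E) (hnd : ∀ i, ¬ Degenerate (Φ i)) (k : ℕ) : LevelFree Φ k 0 := by
  obtain ⟨L, _, _, j, hj⟩ := exists_galois E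
  exact levelFree_of_nondeg hΦ j hj (nondeg_of_not_degenerate hΦ j hj hind hnd) k

/-- Hodge classes are generated by divisor classes if there are no exceptional words. -/
theorem hodge_mem {J : Type} [Fintype J] (t : J → ι) {Φ : ∀ i, Set (E i →+* ℂ)}
    (hΦ : ∀ i, IsCMType (Φ i)) {k m : ℕ} (hs : LevelFree Φ k 0) (hm : 2 * m ≤ k)
    (f : (∀ a, E (t a)) [⋀^Fin (2 * m)]→ₗ[ℚ] ℚ) (hf : IsHodge (per Φ t) f) :
    f ∈ Submodule.span ℚ (divisorProducts (per Φ t) (2 * m) m) := by
  classical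
  obtain ⟨L, _, _, jj, h⟩ := exists_galois E
  obtain ⟨c, hc⟩ := form_coeff t jj h f.toMultilinearMap
  have hL : (fun v : Fin (2 * m) → ∀ a, E (t a) => ((f v : ℚ) : L)) ∈
      Submodule.span L {g | ∃ s ∈ prodSet' (per Φ t) (2 * m) m, g = fun x => ((s x : ℚ) : L)} := by
    have h1 : (fun v : Fin (2 * m) → ∀ a, E (t a) => ((f v : ℚ) : L)) =
        ∑ I : Fin (2 * m) → XX E t L, c I •
          (fun v : Fin (2 * m) → ∀ a, E (t a) => ∏ l, chi E t L (v l) (I l)) := by
      funext v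
      rw [Finset.sum_apply]
      exact hc v
    rw [h1]
    refine Submodule.sum_mem _ fun I _ => ?_
    by_cases hI : c I = 0
    · rw [hI, zero_smul]
      exact Submodule.zero_mem _
    · obtain ⟨k, e, he⟩ := exists_pairs' (j := m) t jj hs hm le_rfl hΦ I (fun σ => by
        have h2 := balanced_of_hodge t jj hΦ h f hf c hc I hI σ
        have h3 : ∀ l, (if jj.comp (σ • (I l).2) ∈ Φ (t (I l).1) then (1 : ℤ) else -1) =
            2 * (if jj.comp (σ • (I l).2) ∈ Φ (t (I l).1) then (1 : ℤ) else 0) - 1 := by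
          intro l
          split_ifs <;> ring
        rw [Finset.sum_congr rfl (fun l _ => h3 l), Finset.sum_sub_distrib, ← Finset.mul_sum,
          Finset.sum_boole, Finset.sum_const, Finset.card_univ, Fintype.card_fin, nsmul_eq_mul,
          mul_one] at h2
        push_cast at h2
        constructor <;> omega)
      exact Submodule.smul_mem _ _ (mono_mem' t hΦ I e he)
  exact alt_mem _ f (span_descent _ _ hL)

end free

section tate

variable {ι : Type} {E : ι → Type} [∀ i, Field (E i)] [∀ i, NumberField (E i)]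
  [∀ i, IsCMField (E i)]

/-- The product over `a : J` of the abelian varieties of CM type `(E (t a), Φ (t a))`. -/
abbrev product {Φ : ∀ i, Set (E i →+* ℂ)} (hΦ : ∀ i, IsCMType (Φ i)) {J : Type} [Fintype J]
    (t : J → ι) : CMAV := ⟨J, fun a => ⟨E (t a), Φ (t a), hΦ (t a)⟩⟩

/-- `f ∈ H^{2m}(A, ℚ_ℓ(m))` (an alternating form on the rational Tate module `V`, `K = ℚ_ℓ`) is a
linear combination, with coefficients in `K`, of products of `m` Hodge classes of degree two (classes
of divisors, by Lefschetz) on `X`. -/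
def IsDivisorial {X : CMAV} {K V : Type} [Field K] [AddCommGroup V] [Module K V]
    (C : Comparison X K V) {m : ℕ} (f : V [⋀^Fin (2 * m)]→ₗ[K] K) : Prop :=
  ∃ (r : ℕ) (c : Fin r → K) (g : Fin r → X.H1 [⋀^Fin (2 * m)]→ₗ[ℚ] ℚ),
    (∀ i, g i ∈ Submodule.span ℚ (divisorProducts X.per (2 * m) m)) ∧
    ∀ v : Fin (2 * m) → X.H1, f (fun k => C.ι (v k)) = ∑ i, c i * (g i v : K)

theorem isHodge_of_isEmpty {W T : Type*} [AddCommGroup W] [Module ℚ W] [AddCommGroup T]
    [Module ℂ T] (per : W →+ T) {κ : Type*} [IsEmpty κ] (f : W [⋀^κ]→ₗ[ℚ] ℚ) : IsHodge per f := by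
  refine ⟨MultilinearMap.constOfIsEmpty ℝ (fun _ : κ => T) ((f (fun k => isEmptyElim k) : ℚ) : ℝ),
    fun v => ?_, fun z _ u => ?_⟩
  · rw [MultilinearMap.constOfIsEmpty_apply]
    simp only [Function.const_apply]
    congr 1
    exact congrArg f (funext fun k => isEmptyElim k)
  · rfl

theorem divisorial_of_ring (X : CMAV) {m : ℕ}
    (hring : ∀ f : X.H1 [⋀^Fin (2 * m)]→ₗ[ℚ] ℚ, IsHodge X.per f →
      f ∈ Submodule.span ℚ (divisorProducts X.per (2 * m) m))
    {K V : Type} [Field K] [CharZero K]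
    [AddCommGroup V] [Module K V] (C : Comparison X K V) (w : AbsoluteValue ℂ ℝ)
    (q : ℕ) (hq : q ≠ 0) (hw : w q < 1) (π : X.H1)
    (hπ : ShimuraTaniyama X w q π) (N : ℕ) (hN : N ≠ 0)
    (f : V [⋀^Fin (2 * m)]→ₗ[K] K)
    (hf : ∀ v : Fin (2 * m) → X.H1, f (fun k => C.ι (π ^ N * v k)) =
      (q : K) ^ (m * N) * f (fun k => C.ι (v k))) : IsDivisorial C f := by
  classical
  rcases isEmpty_or_nonempty X.I with hI | ⟨⟨i⟩⟩
  · -- the zero variety
    rcases Nat.eq_zero_or_pos m with hm | hm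
    · subst hm
      have : IsEmpty (Fin (2 * 0)) := inferInstanceAs (IsEmpty (Fin 0))
      refine ⟨1, fun _ => f (fun k => isEmptyElim k), fun _ => AlternatingMap.constOfIsEmpty ℚ _ _ 1,
        fun _ => hring _ (isHodge_of_isEmpty _ _), fun v => ?_⟩
      rw [Fin.sum_univ_one, AlternatingMap.constOfIsEmpty_apply]
      simp only [Function.const_apply]
      rw [Rat.cast_one, mul_one]
      exact congrArg f (funext fun k => isEmptyElim k)
    · refine ⟨0, fun _ => 0, fun _ => 0, fun i => i.elim0, fun v => ?_⟩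
      rw [Finset.univ_eq_empty, Finset.sum_empty]
      refine f.map_coord_zero (⟨0, by omega⟩ : Fin (2 * m)) ?_
      have h1 : v ⟨0, by omega⟩ = 0 := funext fun i => isEmptyElim i
      rw [h1, map_zero]
  · let _ : Algebra ℚ K := DivisionRing.toRatAlgebra
    obtain ⟨r, c, g, hg, hsum⟩ := Pool.Agent.W547.TN.hodge_span X w q hq hw π hπ
      N m hN (by rw [Nat.card_eq_fintype_card, Fintype.card_fin]) (Pool.Agent.W547.LF.restr C f) hf
      (X.factor i)
    refine ⟨r, c, g, fun i => hring (g i) (hg i), fun v => ?_⟩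
    refine (hsum v).trans ?_
    refine Finset.sum_congr rfl fun i _ => ?_
    rw [Algebra.smul_def, eq_ratCast, mul_comm]

end tate

end

end Pool.Agent.TH170.TT
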