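import Mathlib
import Pool.Agent.TH170.TT.Core

/-!
# The number of families of CM types with exceptional words of bounded length
-/

set_option linter.unusedSectionVars false
set_option linter.unusedVariables false

namespace Pool.Agent.TH170.TT

open NumberField Module Pool.Agent.H204R3.CM Pool.Agent.W546.GHC Pool.Agent.TH170.LV
  Pool.Agent.W548.Tt Pool.Agent.W548.Ab Pool.Agent.W548.Sh

noncomputable section

variable {ι : Type} [Fintype ι] (E : ι → Type) [∀ i, Field (E i)] [∀ i, NumberField (E i)]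
  [∀ i, IsCMField (E i)]

theorem lift_emb {L : Type*} [Field L] (j : L →+* ℂ)
    (hj : ∀ i, ∀ ψ : E i →+* ℂ, ∃ φ : E i →+* L, j.comp φ = ψ) (i : ι) (ψ : E i →+* ℂ) :
    ∃ φ : E i →+* L, j.comp φ = ψ := hj i ψ

/-- The number of families of CM types with exceptional words of at most `k` letters. -/
theorem ncard_not_levelFree_le (g N k : ℕ) (hg : ∀ i, 2 * g ≤ finrank ℚ (E i))
    (hN : ∑ i, finrank ℚ (E i) = 2 * N) (hk : 2 ≤ k) :
    ({Φ : ∀ i, Set (E i →+* ℂ) | (∀ i, IsCMType (Φ i)) ∧ ¬ LevelFree Φ k 0}.ncard : ℝ) ≤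
      2 ^ N * (Fintype.card ι * (2 * N + 1) ^ (k - 1) * (3 * k / 2 + 1) ^ (-(g / (2 * k) : ℝ))) := by
  classical
  obtain ⟨L, _, _, j, hj⟩ := exists_galois E
  have hcard : ∀ i, Fintype.card (E i →+* L) = finrank ℚ (E i) := fun i => card_emb j (hj i)
  let X : Type _ := Σ i, (E i →+* L)
  let inv : X → X := fun x => ⟨x.1, cbar x.2⟩
  have hinv : ∀ x, inv (inv x) = x := by
    rintro ⟨i, φ⟩
    simp only [inv, cbar_cbar]
  have hcomm : ∀ (σ : L ≃ₐ[ℚ] L) (x : X), inv (σ • x) = σ • inv x := by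
    rintro σ ⟨i, φ⟩
    rfl
  have hX : Fintype.card X = 2 * N := by
    rw [Fintype.card_sigma, ← hN]
    exact Finset.sum_congr rfl fun i _ => hcard i
  have horb : ∀ x : X, 2 * g ≤ (MulAction.orbit (L ≃ₐ[ℚ] L) x).ncard := by
    rintro ⟨i, φ⟩
    refine le_trans (hg i) ?_
    rw [← hcard i, ← Nat.card_eq_fintype_card, ← Set.ncard_univ]
    refine Set.ncard_le_ncard_of_injOn (fun ψ : E i →+* L => (⟨i, ψ⟩ : X)) ?_ ?_
      (Set.toFinite _)
    · intro ψ _
      obtain ⟨σ, hσ⟩ := MulAction.exists_smul_eq (L ≃ₐ[ℚ] L) φ ψ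
      refine ⟨σ, ?_⟩
      change (⟨i, σ • φ⟩ : X) = ⟨i, ψ⟩
      rw [hσ]
    · intro ψ _ ψ' _ h
      exact eq_of_heq (Sigma.mk.inj h).2
  have hnon : ∀ i, Nonempty (E i →+* L) := by
    intro i
    rw [← Fintype.card_pos_iff, hcard i]
    exact finrank_pos
  let base : ι → X := fun i => ⟨i, (hnon i).some⟩
  have hbase : ∀ x : X, ∃ (i : ι) (σ : L ≃ₐ[ℚ] L), σ • x = base i := by
    rintro ⟨i, φ⟩
    obtain ⟨σ, hσ⟩ := MulAction.exists_smul_eq (L ≃ₐ[ℚ] L) φ (hnon i).some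
    refine ⟨i, σ, ?_⟩
    change (⟨i, σ • φ⟩ : X) = ⟨i, (hnon i).some⟩
    rw [hσ]
  let ML : X → ℝ := fun _ => 1
  have hML : ∀ x, ML (inv x) = ML x := fun _ => rfl
  have hML0 : ∀ x, ML x ≠ 0 := fun x => one_ne_zero
  have hk' : (0 : ℝ) < k := by
    have h1 : 0 < k := by omega
    exact_mod_cast h1
  set γ : ℝ := (3 * k / 2 + 1 : ℝ) ^ (-(1 / (2 * k : ℝ))) with hγ
  have hγ0 : 0 < γ := Real.rpow_pos_of_pos (by positivity) _
  have hγ1 : γ ≤ 1 := Real.rpow_le_one_of_one_le_of_nonpos (by linarith) (by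
    rw [neg_nonpos]
    positivity)
  have hγg : γ ^ g = (3 * k / 2 + 1 : ℝ) ^ (-(g / (2 * k) : ℝ)) := by
    rw [hγ, ← Real.rpow_natCast, ← Real.rpow_mul (by positivity)]
    congr 1
    ring
  have hmain := card_Bad_le (G := L ≃ₐ[ℚ] L) (κ := Fin k) hinv hcomm ML base hbase k
    (Fintype.card_fin k) (by omega) N hX (2 ^ N * γ ^ g) (by positivity) (fun a x₀ hx₀ => by
      refine le_trans (card_BadW_le hinv hcomm hML hML0 g horb a k (Fintype.card_fin k) γ hγ0 hγ1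
        (fun n hn => beta_le_rpow k n (by omega) hn) x₀ hx₀) ?_
      refine mul_le_mul_of_nonneg_right ?_ (by positivity)
      exact_mod_cast card_Halves_le hinv N hX)
  rw [← hγg]
  refine le_trans ?_ (le_trans hmain (le_of_eq (by ring)))
  rw [Nat.cast_le, ← Set.ncard_coe_finset]
  refine Set.ncard_le_ncard_of_injOn
    (fun Φ => Finset.univ.filter (fun x : X => j.comp x.2 ∈ Φ x.1)) ?_ ?_
    (Finset.finite_toSet _)
  · rintro Φ ⟨hΦ, hnot⟩
    rw [Finset.mem_coe]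
    set S : Finset X := Finset.univ.filter (fun x : X => j.comp x.2 ∈ Φ x.1) with hS
    have hmem : ∀ x : X, x ∈ S ↔ j.comp x.2 ∈ Φ x.1 := fun x => by
      rw [hS, Finset.mem_filter]
      exact ⟨fun h => h.2, fun h => ⟨Finset.mem_univ _, h⟩⟩
    have hST : S ∈ Halves inv := by
      rw [mem_Halves]
      rintro ⟨i, φ⟩
      rw [hmem, hmem]
      change j.comp φ ∈ Φ i ↔ j.comp (cbar φ) ∉ Φ i
      rw [comp_cbar]
      exact hΦ i (j.comp φ)
    by_contra hbad
    apply hnot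
    intro n hn B hB hBn a ha
    obtain rfl : B = 0 := by omega
    by_contra hcon
    push Not at hcon
    let toC : X → Σ i, (E i →+* ℂ) := fun y => ⟨y.1, j.comp y.2⟩
    have hsurj : ∀ z, ∃ y, toC y = z := by
      rintro ⟨i, ψ⟩
      obtain ⟨φ, hφ⟩ := hj i ψ
      exact ⟨⟨i, φ⟩, by simp only [toC, hφ]⟩
    have hconj : ∀ y : X,
        (⟨(toC y).1, ComplexEmbedding.conjugate (toC y).2⟩ : Σ i, (E i →+* ℂ)) = toC (inv y) := by
      rintro ⟨i, φ⟩
      simp only [toC, inv, comp_cbar]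
    choose b hb using fun l => hsurj (a l)
    apply hbad
    rw [Pool.Agent.W548.Tt.mem_Bad]
    refine ⟨hST, pad k b, ?_, fun σ => ?_⟩
    · refine ⟨b ⟨0, by omega⟩, ?_⟩
      rw [cnt_pad hn, cnt_pad hn]
      have h1 : (Finset.univ.filter (fun l => b l = inv (b ⟨0, by omega⟩))).card = 0 := by
        rw [Finset.card_eq_zero, Finset.filter_eq_empty_iff]
        intro l _ hl
        apply ha l ⟨0, by omega⟩
        rw [← hb l, ← hb ⟨0, by omega⟩, hconj, hl]
      have h2 : 0 < (Finset.univ.filter (fun l => b l = b ⟨0, by omega⟩)).card :=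
        Finset.card_pos.2 ⟨⟨0, by omega⟩, Finset.mem_filter.2 ⟨Finset.mem_univ _, rfl⟩⟩
      rw [h1]
      have h3 : (Finset.univ.filter (fun l => b l = b ⟨0, by omega⟩)).card ≠ 0 := h2.ne'
      exact_mod_cast h3
    · rw [sum_pad hn b (fun z => ev (ws ML S) σ z) rfl]
      obtain ⟨τ, hτ⟩ : ∃ τ : ℂ ≃+* ℂ, ∀ x, τ (j x) = j (σ x) :=
        Pool.Agent.H977R3.CM.exists_aut j (σ : L ≃+* L)
      have h1 := hcon τ
      rw [Nat.cast_zero] at h1
      have h2 : ∑ l, ev (ws ML S) σ (some (b l)) = ((∑ l, (if (τ : ℂ →+* ℂ).comp (a l).2 ∈ Φ (a l).1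
          then (1 : ℤ) else -1) : ℤ) : ℝ) := by
        push_cast
        refine Finset.sum_congr rfl fun l _ => ?_
        change ws ML S (σ • b l) = _
        unfold ws
        have h3 : σ • b l ∈ S ↔ (τ : ℂ →+* ℂ).comp (a l).2 ∈ Φ (a l).1 := by
          rw [hmem, ← hb l]
          have h4 : (τ : ℂ →+* ℂ).comp (toC (b l)).2 = j.comp (σ • (b l).2) := by
            ext x
            exact hτ _
          rw [h4]
          rfl
        by_cases h4 : σ • b l ∈ S
        · rw [if_pos h4, if_pos (h3.1 h4)]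
        · rw [if_neg h4, if_neg (fun h5 => h4 (h3.2 h5))]
      rw [h2, abs_nonpos_iff.1 h1, Int.cast_zero]
  · rintro Φ - Φ' - heq
    funext i
    ext ψ
    obtain ⟨φ, rfl⟩ := hj i ψ
    have h3 : Finset.univ.filter (fun x : X => j.comp x.2 ∈ Φ x.1) =
      Finset.univ.filter (fun x : X => j.comp x.2 ∈ Φ' x.1) := heq
    have h2 : (⟨i, φ⟩ : X) ∈ Finset.univ.filter (fun x : X => j.comp x.2 ∈ Φ x.1) ↔
        (⟨i, φ⟩ : X) ∈ Finset.univ.filter (fun x : X => j.comp x.2 ∈ Φ' x.1) := by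
      rw [h3]
    rw [Finset.mem_filter, Finset.mem_filter] at h2
    simpa using h2

end

end Pool.Agent.TH170.TT
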