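import Mathlib
import Pool.Agent.TH170.TT.Count

/-!
# Tate classes of abelian varieties of CM type whose Hodge classes come from divisors
-/

set_option linter.unusedSectionVars false
set_option linter.unusedVariables false

namespace Pool.Agent.TH170.TT

open NumberField Module Pool.Agent.H204R3.CM Pool.Agent.W546.GHC Pool.Agent.TH170.LV
  Pool.Agent.TH170.CM Pool.Agent.W547.KB Pool.Agent.W530.NF Pool.Agent.W547.LN
  Pool.Agent.H977R3.CM

noncomputable section

theorem tate_numberField_div (X : CMAV) {m : ℕ}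
    (hring : ∀ f : X.H1 [⋀^Fin (2 * m)]→ₗ[ℚ] ℚ, IsHodge X.per f →
      f ∈ Submodule.span ℚ (divisorProducts X.per (2 * m) m))
    {K V G : Type} [Field K] [CharZero K] [AddCommGroup V] [Module K V] [Group G]
    (C : Comparison X K V) (ρ : Representation K G V) (χ : G →* K) (w : AbsoluteValue ℂ ℝ) (q : ℕ)
    (π : X.H1) (γ : G) (h : IsFrobeniusAt X C ρ χ w q π γ)
    (f : V [⋀^Fin (2 * m)]→ₗ[K] K) (hf : IsTateClass ρ χ f) : IsDivisorial C f := by
  obtain ⟨Δ, hΔ, hf⟩ := hf
  obtain ⟨N, hN, hNΔ⟩ := exists_pow_mem Δ hΔ γ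
  refine divisorial_of_ring X hring C w q h.ne_zero h.lt_one π h.shimuraTaniyama N hN f fun v => ?_
  have h1 := hf _ hNΔ (fun k => C.ι (v k))
  simp only [pow_apply C.ι ρ γ h.apply_eq] at h1
  rw [map_pow, h.char_eq, ← pow_mul, mul_comm N m] at h1
  exact h1

/-- The Tate conjecture, by divisors, in codimension at most `k / 2` for all products of the abelian
varieties `A i` of CM type `(E i, Φ i)`: let `X` be such a product, `V` the rational Tate module (over
`K = ℚ_ℓ`) of an abelian variety over a number field which is isogenous to `X` over an algebraic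
closure, with the action `ρ` of the Galois group `G`, the cyclotomic character `χ` and one
Frobenius element `γ` at a place above a prime number that splits completely in the CM fields. All
Tate classes in `H^{2m}(X, ℚ_ℓ(m))`, `2 m ≤ k`, are combinations of products of divisor classes. -/
def TateUpTo {ι : Type} {E : ι → Type} [∀ i, Field (E i)] [∀ i, NumberField (E i)]
    [∀ i, IsCMField (E i)] (Φ : ∀ i, Set (E i →+* ℂ)) (k : ℕ) : Prop :=
  ∀ (hΦ : ∀ i, IsCMType (Φ i)) (J : Type) [Fintype J] (t : J → ι)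
    (K V G : Type) [Field K] [CharZero K] [AddCommGroup V] [Module K V] [Group G]
    (C : Comparison (product hΦ t) K V) (ρ : Representation K G V) (χ : G →* K)
    (w : AbsoluteValue ℂ ℝ) (q : ℕ) (π : (product hΦ t).H1) (γ : G),
    IsFrobeniusAt (product hΦ t) C ρ χ w q π γ → ∀ m, 2 * m ≤ k →
      ∀ f : V [⋀^Fin (2 * m)]→ₗ[K] K, IsTateClass ρ χ f → IsDivisorial C f

theorem tateUpTo_of_levelFree {ι : Type} [Fintype ι] {E : ι → Type} [∀ i, Field (E i)]
    [∀ i, NumberField (E i)] [∀ i, IsCMField (E i)] {Φ : ∀ i, Set (E i →+* ℂ)} {k : ℕ}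
    (hs : LevelFree Φ k 0) : TateUpTo Φ k := by
  intro hΦ J _ t K V G _ _ _ _ _ C ρ χ w q π γ h m hm f hf
  exact tate_numberField_div (product hΦ t) (fun f hf => hodge_mem t hΦ hs hm f hf) C ρ χ w q π γ h
    f hf

end

end Pool.Agent.TH170.TT
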