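import Mathlib
import Pool.Agent.TH170.TT.Tate
import Pool.Agent.W547.LN.Tate

/-!
# Tate classes on ordinary abelian varieties over finite fields whose canonical lifts have Hodge
classes generated by divisors
-/

set_option linter.unusedSectionVars false
set_option linter.unusedVariables false

namespace Pool.Agent.TH170.TT

open NumberField Module Pool.Agent.H204R3.CM Pool.Agent.W546.GHC Pool.Agent.TH170.LV
  Pool.Agent.TH170.CM Pool.Agent.W547.KB Pool.Agent.W530.NF Pool.Agent.W547.LN
  Pool.Agent.H977R3.CM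

noncomputable section

theorem tate_finiteField_div (X : CMAV) {m : ℕ}
    (hring : ∀ f : X.H1 [⋀^Fin (2 * m)]→ₗ[ℚ] ℚ, IsHodge X.per f →
      f ∈ Submodule.span ℚ (divisorProducts X.per (2 * m) m))
    (p : ℕ) [Fact p.Prime] (a : ℕ) (ha : 0 < a) (ν : PadicAlgCl p ≃+* ℂ) (π : X.H1)
    (hπ : IsCanonicalLift p a ν X π) {K V : Type} [Field K] [CharZero K] [AddCommGroup V]
    [Module K V] (C : Comparison X K V) (F : V →ₗ[K] V) (hF : IsFrobeniusMap C π F)
    {s : ℕ} (hs : 0 < s) (f : V [⋀^Fin (2 * m)]→ₗ[K] K) (hf : IsTateClassOver F (p ^ a) s f) :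
    IsDivisorial C f := by
  have hp : p.Prime := Fact.out
  have hST : ShimuraTaniyama X (Pool.Agent.W547.TF.absC p ν) (p ^ a) π := by
    constructor
    · intro i φ hφ
      rw [Pool.Agent.W547.TF.absC_cast]
      exact hπ.slope_one i φ hφ
    · intro i φ hφ
      exact hπ.slope_zero i φ hφ
  have hw : Pool.Agent.W547.TF.absC p ν ((p ^ a : ℕ) : ℂ) < 1 := by
    rw [Pool.Agent.W547.TF.absC_cast, norm_pow, Pool.Agent.W547.TF.norm_p]
    refine pow_lt_one₀ (by positivity) ?_ ha.ne'
    rw [inv_lt_one₀ (by exact_mod_cast hp.pos)]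
    exact_mod_cast hp.one_lt
  have hFs : ∀ (N : ℕ) (x : X.H1), (F ^ N) (C.ι x) = C.ι (π ^ N * x) := by
    intro N
    induction N with
    | zero =>
      intro x
      simp
    | succ N ih =>
      intro x
      rw [pow_succ', Module.End.mul_apply, ih, pow_succ', mul_assoc]
      exact hF _
  refine divisorial_of_ring X hring C (Pool.Agent.W547.TF.absC p ν) (p ^ a)
    (pow_pos hp.pos a).ne' hw π hST s hs.ne' f fun v => ?_
  have h1 := hf (fun k => C.ι (v k))
  simp only [hFs s] at h1
  exact h1

/-- The Tate conjecture, by divisors, in all codimensions for the ordinary abelian varieties `A₀` over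
finite fields whose canonical lifts are isogenous to products of the abelian varieties of CM type
`(E i, Φ i)`. Let `A₀` be an ordinary abelian variety over the field with `q = p ^ a` elements with the
canonical lift `X` (`IsCanonicalLift`), `V` the rational Tate module of `A₀` (`K = ℚ_ℓ`) with the
Frobenius endomorphism `F`, which acts by the multiplication by `π ∈ ∏ E (t j)`. All Tate classes in
`H^{2m}(A₀, ℚ_ℓ(m))` over all finite extensions are combinations of products of divisor classes. -/
def TateOrdinary {ι : Type} {E : ι → Type} [∀ i, Field (E i)] [∀ i, NumberField (E i)]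
    [∀ i, IsCMField (E i)] (Φ : ∀ i, Set (E i →+* ℂ)) : Prop :=
  ∀ (hΦ : ∀ i, IsCMType (Φ i)) (J : Type) [Fintype J] (t : J → ι)
    (p : ℕ) [Fact p.Prime] (a : ℕ), 0 < a → ∀ (ν : PadicAlgCl p ≃+* ℂ) (π : (product hΦ t).H1),
    IsCanonicalLift p a ν (product hΦ t) π →
    ∀ (K V : Type) [Field K] [CharZero K] [AddCommGroup V] [Module K V]
      (C : Comparison (product hΦ t) K V) (F : V →ₗ[K] V), IsFrobeniusMap C π F →
      ∀ m s : ℕ, 0 < s → ∀ f : V [⋀^Fin (2 * m)]→ₗ[K] K, IsTateClassOver F (p ^ a) s f →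
        IsDivisorial C f

theorem tateOrdinary_of_levelFree {ι : Type} [Fintype ι] {E : ι → Type} [∀ i, Field (E i)]
    [∀ i, NumberField (E i)] [∀ i, IsCMField (E i)] {Φ : ∀ i, Set (E i →+* ℂ)}
    (hs : ∀ k, LevelFree Φ k 0) : TateOrdinary Φ := by
  intro hΦ J _ t p _ a ha ν π hπ K V _ _ _ _ C F hF m s hs' f hf
  exact tate_finiteField_div (product hΦ t) (fun f hf => hodge_mem t hΦ (hs (2 * m)) le_rfl f hf)
    p a ha ν π hπ C F hF hs' f hf

end

end Pool.Agent.TH170.TT
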