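import Mathlib

/-!
# The size of the bound for words of length at most a constant times the square root
-/

namespace Pool.Agent.TH170.TT

open Filter Topology

/-- The bound is small for `k ≤ c √g` and `c < 1 / 2`. -/
theorem bound_small (c ε : ℝ) (hc0 : 0 < c) (hc : c < 1 / 2) (hε : 0 < ε) :
    ∃ g₀ : ℕ, ∀ g : ℕ, g ≥ g₀ → 2 ≤ ⌊c * Real.sqrt g⌋₊ ∧
      ((1 : ℝ) * (2 * g + 1) ^ (⌊c * Real.sqrt g⌋₊ - 1) *
        (3 * (⌊c * Real.sqrt g⌋₊ : ℝ) / 2 + 1) ^ (-(g / (2 * (⌊c * Real.sqrt g⌋₊ : ℝ))) : ℝ)) ≤ ε := by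
  set δ : ℝ := 1 / (4 * c) - c with hδdef
  have hδ : 0 < δ := by
    have h1 : c < 1 / (4 * c) := by
      rw [lt_div_iff₀ (by positivity)]
      nlinarith
    linarith
  set D : ℝ := c * Real.log 3 - Real.log c / (2 * c) with hD
  set y : ℝ := max (max (2 / c) (Real.exp ((D + 1) / (2 * δ)))) (max (-Real.log ε) (max 1 (4 / c)))
    with hy
  refine ⟨⌈y ^ 2⌉₊, fun g hg => ?_⟩
  have hy1 : 1 ≤ y := le_trans (le_max_left 1 (4 / c)) (le_trans (le_max_right _ _) (le_max_right _ _))
  have hgy : y ^ 2 ≤ g := (Nat.le_ceil _).trans (by exact_mod_cast hg)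
  set x : ℝ := Real.sqrt g with hx
  have hxy : y ≤ x := by
    rw [hx]
    exact Real.le_sqrt_of_sq_le hgy
  have hx1 : 1 ≤ x := hy1.trans hxy
  have hx0 : 0 < x := by linarith
  have hgx : (g : ℝ) = x ^ 2 := by
    rw [hx, Real.sq_sqrt (Nat.cast_nonneg g)]
  have hcx : 4 ≤ c * x := by
    have h1 : 4 / c ≤ x := le_trans (le_trans (le_max_right 1 (4 / c))
      (le_trans (le_max_right _ _) (le_max_right _ _))) hxy
    rw [div_le_iff₀ hc0] at h1
    linarith
  set k : ℕ := ⌊c * x⌋₊ with hk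
  have hk1 : (k : ℝ) ≤ c * x := Nat.floor_le (by positivity)
  have hk2 : c * x < k + 1 := Nat.lt_floor_add_one _
  have hk3 : 2 ≤ k := by
    have : (3 : ℝ) < k + 1 := by linarith
    have h3 : (2 : ℝ) < k := by linarith
    exact_mod_cast h3.le
  refine ⟨hk3, ?_⟩
  have hkpos : (0 : ℝ) < k := by
    have : (2 : ℝ) ≤ k := by exact_mod_cast hk3
    linarith
  have hgpos : (0 : ℝ) < g := by
    rw [hgx]
    positivity
  have hbase : (0 : ℝ) < 2 * g + 1 := by positivity
  have hbase2 : (0 : ℝ) < 3 * (k : ℝ) / 2 + 1 := by positivity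
  have hexp : (1 : ℝ) * (2 * g + 1) ^ (k - 1) * (3 * (k : ℝ) / 2 + 1) ^ (-(g / (2 * (k : ℝ))) : ℝ) =
      Real.exp (((k - 1 : ℕ) : ℝ) * Real.log (2 * g + 1) -
        (g / (2 * (k : ℝ))) * Real.log (3 * (k : ℝ) / 2 + 1)) := by
    rw [one_mul, Real.rpow_def_of_pos hbase2, ← Real.rpow_natCast, Real.rpow_def_of_pos hbase,
      ← Real.exp_add]
    congr 1
    ring
  rw [hexp]
  have hlogg : Real.log g = 2 * Real.log x := by
    rw [hgx, Real.log_pow]
    push_cast
    ring
  have hlogx : (D + 1) / (2 * δ) ≤ Real.log x := by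
    rw [Real.le_log_iff_exp_le hx0]
    exact le_trans (le_trans (le_max_right _ _) (le_max_left _ _)) hxy
  have hlogε : -Real.log ε ≤ x :=
    le_trans (le_trans (le_max_left _ _) (le_max_right _ _)) hxy
  -- the first term
  have h1 : ((k - 1 : ℕ) : ℝ) * Real.log (2 * g + 1) ≤ c * x * (2 * Real.log x + Real.log 3) := by
    have h2 : ((k - 1 : ℕ) : ℝ) ≤ c * x := by
      refine le_trans ?_ hk1
      exact_mod_cast Nat.sub_le k 1
    have hg1 : (1 : ℝ) ≤ g := by
      rw [hgx]
      nlinarith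
    have h3 : Real.log (2 * g + 1) ≤ 2 * Real.log x + Real.log 3 := by
      rw [← hlogg, ← Real.log_mul (by positivity) (by norm_num)]
      exact Real.log_le_log hbase (by linarith)
    have h4 : 0 ≤ Real.log (2 * g + 1) := Real.log_nonneg (by linarith)
    exact mul_le_mul h2 h3 h4 (by positivity)
  -- the second term
  have h5 : x / (2 * c) * (Real.log x + Real.log c) ≤
      (g / (2 * (k : ℝ))) * Real.log (3 * (k : ℝ) / 2 + 1) := by
    have h6 : x / (2 * c) ≤ g / (2 * (k : ℝ)) := by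
      rw [div_le_div_iff₀ (by positivity) (by positivity), hgx]
      nlinarith
    have h7 : Real.log x + Real.log c ≤ Real.log (3 * (k : ℝ) / 2 + 1) := by
      rw [← Real.log_mul hx0.ne' hc0.ne']
      refine Real.log_le_log (by positivity) ?_
      nlinarith
    have h8 : 0 ≤ Real.log x + Real.log c := by
      rw [← Real.log_mul hx0.ne' hc0.ne']
      refine Real.log_nonneg ?_
      linarith
    exact mul_le_mul h6 h7 h8 (by positivity)
  have h9 : ((k - 1 : ℕ) : ℝ) * Real.log (2 * g + 1) -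
        (g / (2 * (k : ℝ))) * Real.log (3 * (k : ℝ) / 2 + 1) ≤ Real.log ε := by
    have h10 : c * x * (2 * Real.log x + Real.log 3) - x / (2 * c) * (Real.log x + Real.log c) =
        x * (D - 2 * δ * Real.log x) := by
      rw [hD, hδdef]
      field_simp
      ring
    have h11 : D - 2 * δ * Real.log x ≤ -1 := by
      rw [div_le_iff₀ (by positivity)] at hlogx
      linarith
    have h12 : x * (D - 2 * δ * Real.log x) ≤ -x := by nlinarith
    linarith
  calc Real.exp _ ≤ Real.exp (Real.log ε) := Real.exp_le_exp.2 h9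
    _ = ε := Real.exp_log hε

end Pool.Agent.TH170.TT
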