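import Mathlib
import Pool.Agent.TH170.TT.Asym
import Pool.Agent.TH170.TT.Deg
import Pool.Agent.TH170.GH.Total

/-!
# Properties of the families of CM types without exceptional words of bounded length
-/

set_option linter.unusedSectionVars false
set_option linter.unusedVariables false

namespace Pool.Agent.TH170.TT

open NumberField Module Pool.Agent.H204R3.CM Pool.Agent.TH170.CM Pool.Agent.TH170.LV

/-- A property that holds for the families of types without exceptional words of length at most `k`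
fails for few families. -/
theorem ncard_small (P : ∀ {ι : Type} {E : ι → Type} [∀ i, Field (E i)] [∀ i, NumberField (E i)]
      [∀ i, IsCMField (E i)], (∀ i, Set (E i →+* ℂ)) → ℕ → Prop)
    (hP : ∀ {ι : Type} [Fintype ι] {E : ι → Type} [∀ i, Field (E i)] [∀ i, NumberField (E i)]
      [∀ i, IsCMField (E i)] (Φ : ∀ i, Set (E i →+* ℂ)) (k : ℕ),
      (∀ i, IsCMType (Φ i)) → LevelFree Φ k 0 → P Φ k) :
    (∀ {ι : Type} [Fintype ι] (E : ι → Type) [∀ i, Field (E i)] [∀ i, NumberField (E i)]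
      [∀ i, IsCMField (E i)] (g N k : ℕ), (∀ i, 2 * g ≤ finrank ℚ (E i)) →
      ∑ i, finrank ℚ (E i) = 2 * N → 2 ≤ k →
      {Φ : ∀ i, Set (E i →+* ℂ) | ∀ i, IsCMType (Φ i)}.ncard = 2 ^ N ∧
      ({Φ : ∀ i, Set (E i →+* ℂ) | (∀ i, IsCMType (Φ i)) ∧ ¬ P Φ k}.ncard : ℝ) ≤
        2 ^ N * (Fintype.card ι * (2 * N + 1) ^ (k - 1) *
          (3 * k / 2 + 1) ^ (-(g / (2 * k) : ℝ)))) ∧
    ∀ c : ℝ, 0 < c → c < 1 / 2 → ∀ ε : ℝ, 0 < ε → ∃ g₀ : ℕ, ∀ g : ℕ, g ≥ g₀ →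
      ∀ (E : Type) [Field E] [NumberField E] [IsCMField E], finrank ℚ E = 2 * g →
      ({Φ : Set (E →+* ℂ) | IsCMType Φ ∧ ¬ P (fun _ : Unit => Φ) ⌊c * Real.sqrt g⌋₊}.ncard : ℝ) ≤
        ε * 2 ^ g := by
  have h : ∀ {ι : Type} [Fintype ι] (E : ι → Type) [∀ i, Field (E i)] [∀ i, NumberField (E i)]
      [∀ i, IsCMField (E i)] (k : ℕ),
      ({Φ : ∀ i, Set (E i →+* ℂ) | (∀ i, IsCMType (Φ i)) ∧ ¬ P Φ k}.ncard : ℝ) ≤
        ({Φ : ∀ i, Set (E i →+* ℂ) | (∀ i, IsCMType (Φ i)) ∧ ¬ LevelFree Φ k 0}.ncard : ℝ) := by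
    intro ι _ E _ _ _ k
    rw [Nat.cast_le]
    refine Set.ncard_le_ncard ?_ (Set.toFinite _)
    rintro Φ ⟨h1, h2⟩
    exact ⟨h1, fun h3 => h2 (hP Φ k h1 h3)⟩
  refine ⟨fun E _ _ _ g N k hg hN hk => ⟨Pool.Agent.TH170.GH.ncard_types E N hN,
    (h E k).trans (ncard_not_levelFree_le E g N k hg hN hk)⟩, ?_⟩
  intro c hc0 hc ε hε
  obtain ⟨g₀, hg₀⟩ := bound_small c ε hc0 hc hε
  refine ⟨g₀, fun g hg E _ _ _ hE => ?_⟩
  obtain ⟨hk, hb⟩ := hg₀ g hg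
  set k := ⌊c * Real.sqrt g⌋₊ with hkdef
  have h1 := ncard_not_levelFree_le (fun _ : Unit => E) g g k (fun _ => hE.ge)
    (by rw [Fintype.sum_unique]; exact hE) hk
  have h2 := (h (fun _ : Unit => E) k).trans h1
  have h3 : ({Φ : Set (E →+* ℂ) | IsCMType Φ ∧ ¬ P (fun _ : Unit => Φ) k}.ncard : ℝ) ≤
      ({Φ : ∀ _ : Unit, Set (E →+* ℂ) | (∀ i, IsCMType (Φ i)) ∧ ¬ P Φ k}.ncard : ℝ) := by
    rw [Nat.cast_le]
    refine Set.ncard_le_ncard_of_injOn (fun Φ => fun _ : Unit => Φ) ?_ ?_ (Set.toFinite _)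
    · rintro Φ ⟨h4, h5⟩
      exact ⟨fun _ => h4, h5⟩
    · intro Φ _ Φ' _ h4
      exact congrFun h4 ()
  refine h3.trans (h2.trans ?_)
  rw [Fintype.card_unit, Nat.cast_one, mul_comm ε]
  exact mul_le_mul_of_nonneg_left hb (by positivity)

end Pool.Agent.TH170.TT
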