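import Mathlib
import Pool.Agent.TH170.TT.Small
import Pool.Agent.W547.LQ.Quot

/-!
# Tate classes modulo a stable subspace, and classes of divisors
-/

set_option linter.unusedSectionVars false
set_option linter.unusedVariables false

namespace Pool.Agent.TH170.TT

open NumberField Module Pool.Agent.H204R3.CM Pool.Agent.W546.GHC Pool.Agent.TH170.LV
  Pool.Agent.TH170.CM Pool.Agent.W547.KB Pool.Agent.W530.NF Pool.Agent.W547.LQ
  Pool.Agent.H977R3.CM

noncomputable section

/-- Lifting of the invariants to combinations of products of classes of divisors. -/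
theorem tate_quot_div (X : CMAV) (m : ℕ)
    (hring : ∀ f : X.H1 [⋀^Fin (2 * m)]→ₗ[ℚ] ℚ, IsHodge X.per f →
      f ∈ Submodule.span ℚ (divisorProducts X.per (2 * m) m))
    {K V G : Type} [Field K] [CharZero K] [AddCommGroup V] [Module K V] [Group G]
    (C : Comparison X K V) (ρ : Representation K G V) (χ : G →* K) (w : AbsoluteValue ℂ ℝ)
    (q : ℕ) (π : X.H1) (γ : G) (h : Pool.Agent.W547.LQ.IsFrobeniusAt X C ρ χ w q π γ)
    (Δ : Subgroup G) (hΔ : Δ.FiniteIndex) (W : Submodule K (Forms K V m))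
    (hW : ∀ s ∈ Δ, ∀ f ∈ W, act ρ χ m s f ∈ W) (f : Forms K V m)
    (hf : ∀ s ∈ Δ, act ρ χ m s f - f ∈ W) : ∃ g : Forms K V m, IsDivisorial C g ∧ f - g ∈ W := by
  classical
  obtain ⟨N, hN, hNΔ⟩ := exists_pow_mem Δ hΔ γ
  set s := γ ^ N with hs
  have hq : (q : K) ≠ 0 := Nat.cast_ne_zero.2 h.ne_zero
  have hχ : χ s = (q : K) ^ N := by rw [hs, map_pow, h.char_eq]
  have hχ' : χ s⁻¹ ^ m = ((q : K) ^ (m * N))⁻¹ := by
    rw [map_inv, hχ, inv_pow, ← pow_mul, mul_comm N m]
  have hfin : FiniteDimensional K V := by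
    let b := Module.finBasis ℚ X.H1
    refine ⟨⟨Finset.univ.image fun i => C.ι (b i), ?_⟩⟩
    rw [eq_top_iff, ← C.span_eq, Submodule.span_le]
    rintro _ ⟨x, rfl⟩
    have h2 := b.sum_repr x
    rw [← h2, map_sum]
    refine Submodule.sum_mem _ fun i _ => ?_
    let _ : Algebra ℚ K := DivisionRing.toRatAlgebra
    let _ : Module ℚ V := Module.compHom V (algebraMap ℚ K)
    have h3 : C.ι (b.repr x i • b i) = (algebraMap ℚ K (b.repr x i)) • C.ι (b i) :=
      C.ι.toRatLinearMap.map_smul _ _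
    rw [h3]
    refine Submodule.smul_mem _ _ (Submodule.subset_span ?_)
    exact Finset.mem_coe.2 (Finset.mem_image.2 ⟨i, Finset.mem_univ _, rfl⟩)
  let T : Forms K V m →ₗ[K] Forms K V m :=
    { toFun := fun f => act ρ χ m s⁻¹ f
      map_add' := fun f g => by
        ext v
        change χ s⁻¹ ^ m * (f _ + g _) = χ s⁻¹ ^ m * f _ + χ s⁻¹ ^ m * g _
        ring
      map_smul' := fun a f => by
        ext v
        change χ s⁻¹ ^ m * (a * f _) = a * (χ s⁻¹ ^ m * f _)
        ring }
  have hT : ∀ (f : Forms K V m) (v : Fin (2 * m) → V), T f v =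
      ((q : K) ^ (m * N))⁻¹ * f (fun k => ρ s (v k)) := by
    intro f v
    change χ s⁻¹ ^ m * f (fun k => ρ s⁻¹⁻¹ (v k)) = _
    rw [hχ', inv_inv]
  have hQ : (q : K) ^ (m * N) ≠ 0 := pow_ne_zero _ hq
  have hπ : ∀ (f : Forms K V m) (v : Fin (2 * m) → X.H1),
      f (fun k => ρ s (C.ι (v k))) = f (fun k => C.ι (π ^ N * v k)) := by
    intro f v
    congr 1
    funext k
    exact pow_apply C.ι ρ γ h.apply_eq N (v k)
  have hkey : ∀ (f : Forms K V m) (v : Fin (2 * m) → X.H1),
      f (fun k => C.ι (π ^ N * v k)) = (q : K) ^ (m * N) * T f (fun k => C.ι (v k)) := by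
    intro f v
    rw [hT, mul_inv_cancel_left₀ hQ, hπ]
  let S : Forms K V m →ₗ[K] Forms K V m := T - LinearMap.id
  have hS : ∀ f : Forms K V m, S f = T f - f := fun f => rfl
  obtain ⟨f0, h1, h2⟩ := lift_invariant S (fun f hf => by
      have h3 : T (S f) = S f := by
        have h4 := hf
        rw [hS (S f), sub_eq_zero] at h4
        exact h4
      refine semisimple X C (π ^ N) ((q : ℚ) ^ (m * N))
        (pow_ne_zero _ (Nat.cast_ne_zero.2 h.ne_zero)) f (S f)
        (fun v => ?_) (fun v => ?_)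
      · rw [hkey]
        push_cast
        congr 1
        change _ = f _ + (T f _ - f _)
        ring
      · rw [hkey, h3]
        push_cast
        rfl) W (fun f hf => by
      rw [hS]
      exact W.sub_mem (hW _ (Δ.inv_mem hNΔ) f hf) hf) f (hf _ (Δ.inv_mem hNΔ))
  refine ⟨f0, ?_, h2⟩
  have h3 : T f0 = f0 := by
    rw [hS, sub_eq_zero] at h1
    exact h1
  exact divisorial_of_ring X hring C w q h.ne_zero h.lt_one π
    h.shimuraTaniyama N hN f0 fun v => by rw [hkey, h3]

/-- The Tate conjecture, by divisors, in codimension at most `k / 2` for the open subvarieties `U` of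
all products `X` of the abelian varieties `A i` of CM type `(E i, Φ i)`. Let `V` be the rational Tate
module (over `K = ℚ_ℓ`) of `X`, with the action `ρ` of the Galois group `G`, the cyclotomic character
`χ` and one Frobenius element `γ`, and let `W ⊆ H^{2m}(X, ℚ_ℓ(m))` be a subspace stable under a
subgroup `Δ` of finite index (the kernel of the restriction to `U`). All classes that are
invariant under `Δ` modulo `W` are congruent modulo `W` to combinations of products of divisors. -/
def TateOpenUpTo {ι : Type} {E : ι → Type} [∀ i, Field (E i)] [∀ i, NumberField (E i)]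
    [∀ i, IsCMField (E i)] (Φ : ∀ i, Set (E i →+* ℂ)) (k : ℕ) : Prop :=
  ∀ (hΦ : ∀ i, IsCMType (Φ i)) (J : Type) [Fintype J] (t : J → ι)
    (K V G : Type) [Field K] [CharZero K] [AddCommGroup V] [Module K V] [Group G]
    (C : Comparison (product hΦ t) K V) (ρ : Representation K G V) (χ : G →* K)
    (w : AbsoluteValue ℂ ℝ) (q : ℕ) (π : (product hΦ t).H1) (γ : G),
    Pool.Agent.W547.LQ.IsFrobeniusAt (product hΦ t) C ρ χ w q π γ → ∀ m, 2 * m ≤ k →
      ∀ Δ : Subgroup G, Δ.FiniteIndex → ∀ W : Submodule K (Forms K V m),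
        (∀ s ∈ Δ, ∀ f ∈ W, act ρ χ m s f ∈ W) →
          ∀ f : Forms K V m, (∀ s ∈ Δ, act ρ χ m s f - f ∈ W) →
            ∃ g : Forms K V m, IsDivisorial C g ∧ f - g ∈ W

theorem tateOpenUpTo_of_levelFree {ι : Type} [Fintype ι] {E : ι → Type} [∀ i, Field (E i)]
    [∀ i, NumberField (E i)] [∀ i, IsCMField (E i)] {Φ : ∀ i, Set (E i →+* ℂ)} {k : ℕ}
    (hs : LevelFree Φ k 0) : TateOpenUpTo Φ k := by
  intro hΦ J _ t K V G _ _ _ _ _ C ρ χ w q π γ h m hm Δ hΔ W hW f hf
  exact tate_quot_div (product hΦ t) m (fun f hf => hodge_mem t hΦ hs hm f hf) C ρ χ w q π γ h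
    Δ hΔ W hW f hf

end

end Pool.Agent.TH170.TT
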