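import Mathlib
import Pool.Agent.TH170.TT.Deg

/-!
# Passing from degenerate types of abelian CM fields to a property of all powers
-/

set_option linter.unusedSectionVars false
set_option linter.unusedVariables false

namespace Pool.Agent.TH170.TT

open NumberField Module Pool.Agent.H204R3.CM Pool.Agent.TH170.CM Pool.Agent.H977R3.CM

/-- A property that holds for the types of abelian CM fields which are not degenerate fails for few
types. -/
theorem ncard_abelian' (P : ∀ (E : Type) [Field E] [NumberField E] [IsCMField E],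
      Set (E →+* ℂ) → Prop)
    (hP : ∀ (E : Type) [Field E] [NumberField E] [IsCMField E] [IsAbelianGalois ℚ E]
      (Φ : Set (E →+* ℂ)), IsCMType Φ → ¬ Degenerate Φ → P E Φ) :
    (∀ (E : Type) [Field E] [NumberField E] [IsCMField E] [IsAbelianGalois ℚ E],
      ({Φ : Set (E →+* ℂ) | IsCMType Φ ∧ ¬ P E Φ}.ncard : ℝ) ≤ 2 ^ (finrank ℚ E / 2) *
        ∑ᶠ K ∈ ImagCyclic E, weight (finrank ℚ K) (finrank K E)) ∧
    (∃ C : ℝ, ∀ (E : Type) [Field E] [NumberField E] [IsCMField E] [IsAbelianGalois ℚ E] (g : ℕ),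
      finrank ℚ E = 2 * g →
      ({Φ : Set (E →+* ℂ) | IsCMType Φ ∧ ¬ P E Φ}.ncard : ℝ) ≤ 2 ^ g *
        ((if Even g then numImagCyclic E 2 / Real.sqrt g else 0) +
          (2 * numImagCyclic E 4 + 3 * numImagCyclic E 6 + C) / g) ∧
      (IsCyclic (E ≃ₐ[ℚ] E) →
        ({Φ : Set (E →+* ℂ) | IsCMType Φ ∧ ¬ P E Φ}.ncard : ℝ) ≤ 2 ^ g * (C / g)) ∧
      ∀ s : Finset (E ≃ₐ[ℚ] E), Subgroup.closure (s : Set (E ≃ₐ[ℚ] E)) = ⊤ →
        ({Φ : Set (E →+* ℂ) | IsCMType Φ ∧ ¬ P E Φ}.ncard : ℝ) ≤ 2 ^ g *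
          ((if Even g then 2 ^ s.card / Real.sqrt g else 0) + C * 6 ^ s.card / g)) := by
  have h : ∀ (E : Type) [Field E] [NumberField E] [IsCMField E] [IsAbelianGalois ℚ E],
      ({Φ : Set (E →+* ℂ) | IsCMType Φ ∧ ¬ P E Φ}.ncard : ℝ) ≤ (degenerateTypes E).ncard := by
    intro E _ _ _ _
    rw [Nat.cast_le]
    refine Set.ncard_le_ncard ?_ (Set.toFinite _)
    rintro Φ ⟨h1, h2⟩
    refine ⟨h1, ?_⟩
    by_contra h3
    exact h2 (hP E Φ h1 h3)
  refine ⟨fun E _ _ _ _ => (h E).trans (ncard_degenerate E), ?_⟩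
  obtain ⟨C, -, hC⟩ := exists_uniform
  exact ⟨C, fun E _ _ _ _ g hg => ⟨(h E).trans (hC E g hg).1,
    fun hc => (h E).trans ((hC E g hg).2.1 hc), fun s hs => (h E).trans ((hC E g hg).2.2 s hs)⟩⟩

end Pool.Agent.TH170.TT
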